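import Pool.Agent.Y915.GS4
import Pool.Agent.Y915.Mer2

set_option autoImplicit false

/-!
# Flat bundles on proper curves with vanishing `p`-curvatures, near the trivial connection

A case of the implication from (H) to a full set of algebraic sections, for bundles on smooth
proper curves, and its consequences: all global sections of such a bundle are horizontal, all
homomorphisms between two such bundles are horizontal, a bundle carries at most one such
connection, and the only such connection on the trivial bundle is `d`.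
-/

namespace Pool.Agent.Results.MP_0707f5_ag.GlobalSections

open FF
open scoped PowerSeries Polynomial

/-- The power series converges in the open unit disc. -/
def Conv (f : ℂ⟦X⟧) : Prop :=
  ∀ ρ : ℝ, 0 < ρ → ρ < 1 → ∃ B : ℝ, ∀ m : ℕ, ‖PowerSeries.coeff m f‖ * ρ ^ m ≤ B

/-- The Taylor series `∑ e(∂^m a) / m! X^m` of `a` at the integral point `e`. -/
noncomputable def taylor {A : Type} [CommRing A] (D : Derivation ℤ A A) (e : A →+* ℤ) (a : A) :
    ℂ⟦X⟧ :=
  PowerSeries.mk fun m => ((e (D^[m] a) : ℤ) : ℂ) / (m.factorial : ℂ)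

/-- The connection `v ↦ ∂ v + N v` on `A ^ r`. -/
def conn {A : Type} [CommRing A] {r : ℕ} (D : Derivation ℤ A A) (N : Matrix (Fin r) (Fin r) A)
    (v : Fin r → A) : Fin r → A :=
  fun i => D (v i) + N.mulVec v i

/-- The `p`-curvature of the connection vanishes modulo `p` (here `∂ ^ p = 0` modulo `p`). -/
def PCurvZero {A : Type} [CommRing A] {r : ℕ} (D : Derivation ℤ A A)
    (N : Matrix (Fin r) (Fin r) A) (p : ℕ) : Prop :=
  ∀ v : Fin r → A, ∃ w : Fin r → A, (conn D N)^[p] v = (p : ℤ) • w

/-- The Taylor series at `0` of the functions that are meromorphic in the open unit disc and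
holomorphic at `0`: quotients of functions holomorphic in the disc, with denominator `1` at `0`. -/
def Mer (f : ℂ⟦X⟧) : Prop :=
  ∃ Q : ℂ⟦X⟧, PowerSeries.constantCoeff Q = 1 ∧ Conv Q ∧ Conv (Q * f)

/-- `D = d/dx`, the point `e` lies above `x = 0`, and `x = φ`, `φ(0) = 0`, is meromorphic in the
unit disc, such that the pull back of the connection `d + N dx` has a full set of meromorphic
solutions `V` in the disc, `V(0) = 1`. (For example `φ` is the universal cover, based at `e`, of the
proper curve if `d + N dx` is a regular connection on a bundle on it.) -/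
structure Disc {A : Type} [CommRing A] [Algebra ℤ[X] A] {r : ℕ} (D : Derivation ℤ A A)
    (e : A →+* ℤ) (N : Matrix (Fin r) (Fin r) A) (φ : ℂ⟦X⟧) : Prop where
  dx : D (algebraMap ℤ[X] A Polynomial.X) = 1
  ex : e (algebraMap ℤ[X] A Polynomial.X) = 0
  const : PowerSeries.constantCoeff φ = 0
  mer : Mer φ
  sol : ∃ V : Matrix (Fin r) (Fin r) ℂ⟦X⟧, (∀ i j, Mer (V i j)) ∧
    V.map PowerSeries.constantCoeff = 1 ∧ ∀ i j, PowerSeries.derivative ℂ (V i j) =
      -(PowerSeries.derivative ℂ φ *
        ∑ l, PowerSeries.subst φ (taylor D e (N i l)) * V l j)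

/-- The hypothesis on the connection `d + N dx`: `N = M C` for an integer `M` and a matrix `C`,
there is a disc `φ` of radius `R = |φ'(0)|`, and either the sizes `k p` satisfy the explicit
criterion, or `M` is a multiple of `M₀` and the `p`-curvatures vanish at the primes `p` not
dividing `M` outside of a set of primes with `∑ log p / p ≤ log R - δ`. -/
def Hyp {A : Type} [CommRing A] [Algebra ℤ[X] A] {r : ℕ} (δ : ℝ) (M₀ : ℕ) (D : Derivation ℤ A A)
    (N : Matrix (Fin r) (Fin r) A) : Prop :=
  ∃ (e : A →+* ℤ) (M : ℤ) (C : Matrix (Fin r) (Fin r) A) (φ : ℂ⟦X⟧), N = M • C ∧ M ≠ 0 ∧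
    Disc D e N φ ∧ PowerSeries.coeff 1 φ ≠ 0 ∧
    ((∃ (k : ℕ → ℕ) (t : ℝ), t < Real.log ‖PowerSeries.coeff 1 φ‖ ∧
      (∀ p : ℕ, p.Prime → k p = 0 ∨ (k p = 1 ∧ PCurvZero D N p) ∨
        (p : ℤ) ^ (∑ i ∈ Finset.range (k p), p ^ i) ∣ M) ∧
      ∀ m : ℕ, ∑ p ∈ (Finset.range (m + 1)).filter Nat.Prime,
        Real.log p / ((p : ℝ) ^ k p * ((p : ℝ) - 1)) ≤ t) ∨
    ((M₀ : ℤ) ∣ M ∧ ∀ S : Finset ℕ,
      (∀ p ∈ S, p.Prime ∧ ¬ (p : ℤ) ∣ M ∧ ¬ PCurvZero D N p) →
      ∑ p ∈ S, Real.log p / p ≤ Real.log ‖PowerSeries.coeff 1 φ‖ - δ))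

section curve

variable {k F : Type} [Field k] [Field F] [Algebra k F]

/-- Let `dx` be the differential dual to `E`. The differential `f dx = (f / E π) dπ` is regular at
`P` (`π` runs through the local parameters). -/
def RegForm (E : Derivation k F F) (P : Place k F) (f : F) : Prop :=
  ∀ π : F, P.ord π = 1 → P.Reg (f / E π)

/-- The bundle on the proper curve with function field `F`, with generic fibre `F ^ r` and with the
columns of `g P` as frame at `P`, and the connection `∇ = d + N dx` on it, which is regular at all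
places `P`. -/
def RegConn (E : Derivation k F F) {r : ℕ} (g : Place k F → Matrix (Fin r) (Fin r) F)
    (N : Matrix (Fin r) (Fin r) F) : Prop :=
  ∀ P, IsUnit (g P) ∧ ∀ i j, RegForm E P (((g P)⁻¹ * (N * g P + (g P).map E)) i j)

/-- The bundle `(g, N)` admits a full set of algebraic sections: for a finite extension `L` of `F`
there is an invertible matrix `Z` over `L`, with horizontal columns, which is a frame of the pull
back of the bundle at all places `Q` of `L`. -/
def FullSections (E : Derivation k F F) {r : ℕ} (g : Place k F → Matrix (Fin r) (Fin r) F)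
    (N : Matrix (Fin r) (Fin r) F) : Prop :=
  ∃ (L : Type) (_ : Field L) (_ : Algebra k L) (_ : Algebra F L) (_ : IsScalarTower k F L)
    (_ : FiniteDimensional F L) (E' : Derivation k L L) (Z : Matrix (Fin r) (Fin r) L),
    (∀ f, E' (algebraMap F L f) = algebraMap F L (E f)) ∧ IsUnit Z ∧
    Z.map E' + N.map (algebraMap F L) * Z = 0 ∧
    ∀ (Q : Place k L) (P : Place k F) (n : ℕ), 0 < n →
      (∀ f, Q.ord (algebraMap F L f) = n * P.ord f) → ∀ i j,
      Q.Reg ((((g P).map (algebraMap F L))⁻¹ * Z) i j) ∧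
      Q.Reg ((Z⁻¹ * (g P).map (algebraMap F L)) i j)

end curve

/-- Let `A` be a domain étale over `ℤ[x]` with derivation `D = d/dx`, let `F ⊇ A` be a function
field of one variable over an algebraically closed field `k` of characteristic zero, with a
`k`-derivation `E` which extends `D`, let `N ∈ M_r(A)` satisfy `Hyp`, and let `(g, N)` be a bundle
with regular connection on the proper curve with function field `F`.

* It has a full set of algebraic sections.
* All global sections of the bundle are horizontal.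
* If the bundle is trivial (`g P = 1` for all `P`), then the connection is trivial.
* For two such bundles all homomorphisms of vector bundles are horizontal.
* The connection is the only such connection on its bundle. -/
theorem result (δ : ℝ) (hδ : 0 < δ) : ∃ M₀ : ℕ, 0 < M₀ ∧
    ∀ (A : Type) [CommRing A] [IsDomain A] [Algebra ℤ[X] A] [Algebra.Etale ℤ[X] A]
      (D : Derivation ℤ A A) (k F : Type) [Field k] [CharZero k] [IsAlgClosed k] [Field F]
      [Algebra k F] [IsFF k F] (ι : A →+* F) (E : Derivation k F F), Function.Injective ι →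
      (∀ a, E (ι a) = ι (D a)) →
      ∀ (r : ℕ) (N : Matrix (Fin r) (Fin r) A) (g : Place k F → Matrix (Fin r) (Fin r) F),
        Hyp δ M₀ D N → RegConn E g (N.map ι) →
        FullSections E g (N.map ι) ∧
        (∀ s : Fin r → F, (∀ (P : Place k F) i, P.Reg (((g P)⁻¹).mulVec s i)) →
          ∀ i, E (s i) + (N.map ι).mulVec s i = 0) ∧
        ((∀ P, g P = 1) → N = 0) ∧
        (∀ (s : ℕ) (N' : Matrix (Fin s) (Fin s) A) (g' : Place k F → Matrix (Fin s) (Fin s) F),
          Hyp δ M₀ D N' → RegConn E g' (N'.map ι) →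
          ∀ H : Matrix (Fin s) (Fin r) F,
            (∀ (P : Place k F) i j, P.Reg (((g' P)⁻¹ * H * g P) i j)) →
            H.map E + N'.map ι * H = H * N.map ι) ∧
        (∀ N' : Matrix (Fin r) (Fin r) A, Hyp δ M₀ D N' → RegConn E g (N'.map ι) → N' = N) := by
  obtain ⟨M₀, h0, HU⟩ := Pool.Agent.Y915.Mero.uniformEt' hδ
  refine ⟨M₀, h0, ?_⟩
  intro A _ _ _ _ D k F _ _ _ _ _ _ ι E hι hE r N g hN hg
  have hsol : ∀ (s : ℕ) (N : Matrix (Fin s) (Fin s) A), Hyp δ M₀ D N →
      Pool.Agent.Y915.Cur.AlgSol D N := by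
    rintro s N ⟨e, M, C, φ, rfl, hM, hU, h1, h2 | h2⟩
    · obtain ⟨κ, t, hlt, hk, hsum⟩ := h2
      exact Pool.Agent.Y915.Mero.critEt' ⟨hU.dx, hU.ex, hU.const, hU.mer, hU.sol⟩ hM h1 hlt hk hsum
    · exact HU A D e s M C φ ⟨hU.dx, hU.ex, hU.const, hU.mer, hU.sol⟩ hM h2.1 h2.2
  have hE0 : E ≠ 0 := by
    obtain ⟨e, M, C, φ, -, -, hU, -⟩ := hN
    rintro rfl
    have h1 := hE (algebraMap ℤ[X] A Polynomial.X)
    rw [hU.dx, map_one, Derivation.coe_zero, Pi.zero_apply] at h1
    exact zero_ne_one h1
  have hreg : ∀ (s : ℕ) (N : Matrix (Fin s) (Fin s) A)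
      (g : Place k F → Matrix (Fin s) (Fin s) F), RegConn E g (N.map ι) →
      ∀ v, Pool.Agent.Y915.GS.RegAt E v (g v) (N.map ι) := fun s N g hg v =>
    Pool.Agent.Y915.GS.regAt_of hE0 (hg v).1 (hg v).2
  have hs := hsol r N hN
  have hr := hreg r N g hg
  -- global sections
  have hsec : ∀ s : Fin r → F, (∀ (P : Place k F) i, P.Reg (((g P)⁻¹).mulVec s i)) →
      ∀ i, E (s i) + (N.map ι).mulVec s i = 0 := by
    intro s hs1 i
    have hz : Pool.Agent.Y915.Cur.AlgSol D (0 : Matrix (Fin 1) (Fin 1) A) :=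
      Pool.Agent.Y915.GS.algSol_zero hs 1
    have hz0 : (0 : Matrix (Fin 1) (Fin 1) A).map ι = 0 := Matrix.map_zero _ (map_zero _)
    have h1 : ∀ v, Pool.Agent.Y915.GS.RegAt E v (1 : Matrix (Fin 1) (Fin 1) F)
        ((0 : Matrix (Fin 1) (Fin 1) A).map ι) := by
      intro v
      refine ⟨isUnit_one, fun i j => Or.inl ?_⟩
      rw [hz0, Matrix.zero_mul, zero_add, Pool.Agent.Y915.GS.map_one_der, Matrix.mul_zero,
        Matrix.zero_apply]
    have h2 := Pool.Agent.Y915.GS.hom_flat' hι hE0 hE hz hs (g := fun _ => 1) h1 hr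
      (H := Matrix.of fun i _ => s i) (by
        intro v a b
        rw [Matrix.mul_one]
        exact hs1 v a)
    have h3 := congrFun (congrFun h2 i) 0
    rw [hz0, Matrix.mul_zero, Matrix.zero_apply, Matrix.add_apply, Matrix.map_apply,
      Matrix.mul_apply] at h3
    exact h3
  have hhom : ∀ (s : ℕ) (N' : Matrix (Fin s) (Fin s) A)
      (g' : Place k F → Matrix (Fin s) (Fin s) F), Hyp δ M₀ D N' → RegConn E g' (N'.map ι) →
      ∀ H : Matrix (Fin s) (Fin r) F,
        (∀ (P : Place k F) i j, P.Reg (((g' P)⁻¹ * H * g P) i j)) →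
        H.map E + N'.map ι * H = H * N.map ι := fun s N' g' hN' hg' H hH =>
    Pool.Agent.Y915.GS.hom_flat' hι hE0 hE hs (hsol s N' hN') hr (hreg s N' g' hg') hH
  refine ⟨Pool.Agent.Y915.GS.full hι hE0 hE hs hr, hsec, ?_, hhom, ?_⟩
  · intro hg1
    ext i j
    have h1 := hsec (Pi.single j 1) (fun P l => by
      rw [hg1 P, inv_one, Matrix.one_mulVec]
      by_cases hl : l = j
      · rw [hl, Pi.single_eq_same]
        exact P.reg_one
      · rw [Pi.single_eq_of_ne hl]
        exact P.reg_zero) i
    have h2 : E ((Pi.single j 1 : Fin r → F) i) = 0 := by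
      by_cases hl : i = j
      · rw [hl, Pi.single_eq_same, Derivation.map_one_eq_zero]
      · rw [Pi.single_eq_of_ne hl, map_zero]
    rw [h2, zero_add, Matrix.mulVec_single_one, Matrix.col_apply, Matrix.map_apply] at h1
    rw [Matrix.zero_apply]
    exact (map_eq_zero_iff ι hι).1 h1
  · intro N' hN' hg'
    have h1 := hhom r N' g hN' hg' 1 (fun P i j => by
      have hd : IsUnit (g P).det := (Matrix.isUnit_iff_isUnit_det _).1 (hg P).1
      rw [Matrix.mul_one, Matrix.nonsing_inv_mul _ hd, Matrix.one_apply]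
      split_ifs
      · exact P.reg_one
      · exact P.reg_zero)
    rw [Pool.Agent.Y915.GS.map_one_der, zero_add, Matrix.mul_one, Matrix.one_mul] at h1
    ext i j
    have h2 := congrFun (congrFun h1 i) j
    rw [Matrix.map_apply, Matrix.map_apply] at h2
    exact hι h2

end Pool.Agent.Results.MP_0707f5_ag.GlobalSections
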