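import Pool.Agent.Y915.HFin

set_option autoImplicit false

/-!
# Operators close to a power of `s ∂` on a hyperelliptic curve `s² = 1 + 4 f(x)`

For `f` in `ℤ[x]` with `f(0) = 0` let `F = 1 + 4 f`. On the curve `s² = F`, that is `v² + v = f(x)`
with `s = 2 v + 1`, the operators `(s ∂)^N + ∑_{i < N} M^(N - i) αᵢ (s ∂)^i` with `αᵢ` in `ℤ[x, v]`
are considered; those that are, up to a factor `s`, operators over `ℚ(x)` are the operators
`oper` below. They can have any order `N`, and their coefficients `a i` are arbitrary.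
-/

namespace Pool.Agent.Results.MP_0707f5_ag.HyperellipticNeighbourhoods

open Polynomial PowerSeries Finset

/-- The operator `Δ = F ∂² + (1/2) F' ∂`, where `F = 1 + 4 f`; it is the square of `√F ∂`.
Here `D` is the derivation `∂` of a ring and `x` the variable. -/
noncomputable def delta {R : Type*} [CommRing R] (f : ℤ[X]) (D : R → R) (x y : R) : R :=
  (1 + 4 * Polynomial.aeval x f) * D (D y) +
    2 * Polynomial.aeval x (Polynomial.derivative f) * D y

/-- The operators `B_i`: `Δ ^ (i / 2)` for even `i` and `∂ Δ ^ ((i - 1) / 2)` for odd `i`. -/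
noncomputable def base {R : Type*} [CommRing R] (f : ℤ[X]) (D : R → R) (x : R) (i : ℕ) (y : R) : R :=
  if Even i then (delta f D x)^[i / 2] y else D ((delta f D x)^[i / 2] y)

/-- The operator `L = B_N + ∑_{i < N} M ^ (N - i) a_i(x) B_i`, where for even `N` the terms with
odd `i` are multiplied by `F = 1 + 4 f`. -/
noncomputable def oper {R : Type*} [CommRing R] (f : ℤ[X]) (N : ℕ) (M : ℤ) (a : Fin N → ℤ[X])
    (D : R → R) (x y : R) : R :=
  base f D x N y + ∑ i : Fin N, (M : R) ^ (N - (i : ℕ)) * Polynomial.aeval x (a i) *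
    (if Even N ∧ Odd (i : ℕ) then 1 + 4 * Polynomial.aeval x f else 1) * base f D x i y

/-- For some derivation `D` of the field `K` with `D x = 1` there are `N` solutions of `L D y = 0`
in `K` that are linearly independent over the constants. -/
def Full {K : Type*} [Field K] (N : ℕ) (L : (K → K) → K → K) (x : K) : Prop :=
  ∃ D : Derivation ℤ K K, D x = 1 ∧ ∃ y : Fin N → K, (∀ j, L (⇑D) (y j) = 0) ∧
    ∀ b : Fin N → K, (∀ j, D (b j) = 0) → ∑ j, b j * y j = 0 → ∀ j, b j = 0

/-- `p` is a prime and the reduction of `L` modulo `p` has a full basis of rational solutions. -/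
def FullMod (f : ℤ[X]) (N : ℕ) (M : ℤ) (a : Fin N → ℤ[X]) (p : ℕ) : Prop :=
  ∃ _ : Fact p.Prime, Full N (fun D y => oper f N M a D (RatFunc.X : RatFunc (ZMod p)) y)
    (RatFunc.X : RatFunc (ZMod p))

/-- `L` has a full basis of algebraic solutions. -/
def FullAlg (f : ℤ[X]) (N : ℕ) (M : ℤ) (a : Fin N → ℤ[X]) : Prop :=
  Full N (fun D y => oper f N M a D
      (algebraMap (RatFunc ℚ) (AlgebraicClosure (RatFunc ℚ)) RatFunc.X) y)
    (algebraMap (RatFunc ℚ) (AlgebraicClosure (RatFunc ℚ)) RatFunc.X)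

/-- The power series `h` converges in the open unit disc. -/
def Conv (h : ℂ⟦X⟧) : Prop :=
  ∀ ρ : ℝ, 0 < ρ → ρ < 1 → ∃ B : ℝ, ∀ m : ℕ, ‖PowerSeries.coeff m h‖ * ρ ^ m ≤ B

/-- There is a holomorphic map `(φ, S)` from the open unit disc to the curve `s² = 1 + 4 f(x)`,
given by its power series at `0`, that maps `0` to `(0, 1)` and has `|φ'(0)| ≥ R`. Here
`g = φ' / S` is the pull-back of the differential `dx / s`, which is regular at the points where
the curve is smooth. -/
def Radius (f : ℤ[X]) (R : ℝ) : Prop :=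
  ∃ φ S g : ℂ⟦X⟧, Conv φ ∧ Conv S ∧ Conv g ∧
    PowerSeries.constantCoeff φ = 0 ∧ PowerSeries.constantCoeff S = 1 ∧
    S ^ 2 = 1 + 4 * f.eval₂ (Int.castRingHom ℂ⟦X⟧) φ ∧
    PowerSeries.derivative ℂ φ = S * g ∧ R ≤ ‖PowerSeries.coeff 1 φ‖

/-- (1) Let `f` be in `ℤ[x]` with `f(0) = 0`, let the curve `s² = 1 + 4 f(x)` have radius `≥ R` at
`(0, 1)`, let `N ≥ 1` and `M ≠ 0` be integers and `L` the operator `oper`, of order `N`, with
arbitrary `a_i` in `ℤ[x]`. Let `k` be a function such that for every prime `p` the number `k p` is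
`0`, or it is `1` and `L` modulo `p` has a full basis of rational solutions, or `M` is divisible by
the power of `p` with exponent `1 + p + ⋯ + p ^ (k p - 1)`. If the sums of
`log p / (p ^ (k p) (p - 1))` over the primes `p ≤ m` are at most `τ < log R`, then `L` has a full
basis of algebraic solutions.

(2) For every `δ > 0` there is an integer `M₀ > 0`, depending on `δ` only, such that for all `f`
and `R` as in (1), all orders `N`, all multiples `M ≠ 0` of `M₀` and all `a_i`: if the sum of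
`log p / p` over the primes `p` that do not divide `M` and for which `L` modulo `p` has no full
basis of rational solutions is at most `log R - δ` (over every finite set of such primes), then `L`
has a full basis of algebraic solutions.

(3) For `f = c xⁿ`, `n ≥ 1`, `c ≠ 0`, every `R < (16 / |c|) ^ (1 / n)` can be taken in (1), (2). -/
theorem result :
    (∀ (f : ℤ[X]) (R τ : ℝ), f.coeff 0 = 0 → Radius f R → 0 < R → τ < Real.log R →
      ∀ (N : ℕ) (M : ℤ) (a : Fin N → ℤ[X]) (k : ℕ → ℕ), 1 ≤ N → M ≠ 0 →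
        (∀ p : ℕ, p.Prime → k p = 0 ∨ (k p = 1 ∧ FullMod f N M a p) ∨
          (p : ℤ) ^ (∑ i ∈ range (k p), p ^ i) ∣ M) →
        (∀ m : ℕ, ∑ p ∈ (range (m + 1)).filter Nat.Prime,
          Real.log p / ((p : ℝ) ^ k p * ((p : ℝ) - 1)) ≤ τ) →
        FullAlg f N M a) ∧
    (∀ δ : ℝ, 0 < δ → ∃ M₀ : ℕ, 0 < M₀ ∧ ∀ (f : ℤ[X]) (R : ℝ), f.coeff 0 = 0 → Radius f R →
      0 < R → ∀ (N : ℕ) (M : ℤ) (a : Fin N → ℤ[X]), 1 ≤ N → M ≠ 0 → (M₀ : ℤ) ∣ M →
        (∀ S : Finset ℕ, (∀ p ∈ S, p.Prime ∧ ¬ (p : ℤ) ∣ M ∧ ¬ FullMod f N M a p) →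
          ∑ p ∈ S, Real.log p / p ≤ Real.log R - δ) →
        FullAlg f N M a) ∧
    (∀ (n : ℕ) (c : ℤ) (R : ℝ), 1 ≤ n → c ≠ 0 → 0 ≤ R → |(c : ℝ)| * R ^ n < 16 →
      Radius (Polynomial.C c * Polynomial.X ^ n) R) :=
  ⟨fun _ _ _ hf hR hR0 hτ _ _ _ _ hN hM hk hsum =>
      Pool.Agent.Y915.Hyp.part1 hf hR hR0 hτ hN hM hk hsum,
    fun _ hδ => Pool.Agent.Y915.Hyp.part2 hδ,
    fun _ _ _ hn hc hR0 hR => Pool.Agent.Y915.Hyp.part3 hn hc hR0 hR⟩

end Pool.Agent.Results.MP_0707f5_ag.HyperellipticNeighbourhoods
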